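import Pool.Agent.Lib.MP_fa7d23_ag.Ten.Tay

set_option autoImplicit false

/-! The inequality of Bezout with multiplicities, by a count of dimensions. -/

namespace Pool.Agent.Lib.MP_fa7d23_ag.Ten
open MvPolynomial Finset

lemma finrank_homog_le (n : ℕ) :
    2 * Module.finrank ℂ (homogeneousSubmodule (Fin 3) ℂ n) ≤ (n + 1) * (n + 2) := by
  let Λ : homogeneousSubmodule (Fin 3) ℂ n →ₗ[ℂ] (T (n + 1) → ℂ) :=
    LinearMap.pi fun s => (lcoeff ℂ (ex n s)) ∘ₗ (homogeneousSubmodule (Fin 3) ℂ n).subtype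
  have h1 : Function.Injective Λ := by
    rw [injective_iff_map_eq_zero]
    intro f hf
    ext d
    by_cases hd : d 0 + d 1 + d 2 = n
    · have h := congrFun hf ⟨⟨d 0 + d 1, by omega⟩, ⟨d 0, by simp only; omega⟩⟩
      have e : ex n (⟨⟨d 0 + d 1, by omega⟩, ⟨d 0, by simp only; omega⟩⟩ : T (n + 1)) = d := by
        ext i
        fin_cases i
        · rfl
        · simp [ex_one]
        · simp only [Fin.reduceFinMk, ex_two]
          omega
      rw [← e]
      exact h
    · exact IsHomogeneous.coeff_eq_zero f.2 (by rwa [degree_three])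
  have h2 := LinearMap.finrank_le_finrank_of_injective h1
  rw [Module.finrank_fintype_fun_eq_card] at h2
  have h3 := card_T (n + 1)
  nlinarith

lemma lin_mem0 (x y : ℂ) : (X 0 - C x * X 2 : R) ∈ I ![x, y, 1] :=
  Ideal.subset_span ⟨(2, 0), by simp⟩

lemma lin_mem1 (x y : ℂ) : (X 1 - C y * X 2 : R) ∈ I ![x, y, 1] :=
  Ideal.subset_span ⟨(2, 1), by simp⟩

lemma lin_hom (i : Fin 3) (x : ℂ) : (X i - C x * X 2 : R).IsHomogeneous 1 :=
  (isHomogeneous_X ℂ i).sub (isHomogeneous_C_mul_X x 2)

lemma cf_zero_mul (P Q : Polynomial (Polynomial ℂ)) : cf 0 0 (P * Q) = cf 0 0 P * cf 0 0 Q := by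
  rw [cf_apply, Polynomial.mul_coeff_zero, Polynomial.mul_coeff_zero]
  rfl

lemma exists_lin {x y x' y' : ℂ} (h : (x, y) ≠ (x', y')) :
    ∃ l : R, l.IsHomogeneous 1 ∧ l ∈ I ![x', y', 1] ∧ cf 0 0 (tay x y l) ≠ 0 := by
  by_cases hx : x = x'
  · have hy : y - y' ≠ 0 := sub_ne_zero.2 fun hy => h (by rw [hx, hy])
    exact ⟨_, lin_hom 1 y', lin_mem1 x' y', by simpa [tay, cf_apply] using hy⟩
  · have hy : x - x' ≠ 0 := sub_ne_zero.2 hx
    exact ⟨_, lin_hom 0 x', lin_mem0 x' y', by simpa [tay, cf_apply] using hy⟩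

variable {r : ℕ} {x y : Fin r → ℂ}

lemma exists_away (hp : Function.Injective fun i => (x i, y i)) (i : Fin r) (k : Fin r → ℕ)
    (s : Finset (Fin r)) (hs : i ∉ s) : ∃ U : R, U.IsHomogeneous (∑ j ∈ s, k j) ∧
      (∀ j ∈ s, U ∈ I ![x j, y j, 1] ^ k j) ∧ cf 0 0 (tay (x i) (y i) U) ≠ 0 := by
  induction s using Finset.induction_on with
  | empty => exact ⟨1, isHomogeneous_one _ _, fun j hj => absurd hj (notMem_empty j),
      by simp [cf_apply]⟩
  | insert j s hj ih =>
    obtain ⟨U, h1, h2, h3⟩ := ih fun h => hs (mem_insert_of_mem h)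
    obtain ⟨l, h4, h5, h6⟩ := exists_lin (x := x i) (y := y i) (x' := x j) (y' := y j)
      fun h => hs (by rw [hp h]; exact mem_insert_self _ _)
    refine ⟨l ^ k j * U, ?_, fun m hm => ?_, ?_⟩
    · have h7 := (h4.pow (k j)).mul h1
      rwa [one_mul, ← sum_insert hj] at h7
    · rcases mem_insert.1 hm with rfl | hm
      · exact Ideal.mul_mem_right _ _ (Ideal.pow_mem_pow h5 _)
      · exact Ideal.mul_mem_left _ _ (h2 m hm)
    · rw [map_mul, cf_zero_mul]
      refine mul_ne_zero ?_ h3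
      induction k j with
      | zero => simp [cf_apply]
      | succ n ihn =>
        rw [pow_succ, map_mul, cf_zero_mul]
        exact mul_ne_zero ihn h6

lemma cf_mono (P : Polynomial (Polynomial ℂ)) {a b a' b' : ℕ} (h : a + b = a' + b') :
    cf a' b' (Polynomial.C Polynomial.X ^ a * Polynomial.X ^ b * P) =
      if a' = a then cf 0 0 P else 0 := by
  rw [cf_apply, ← Polynomial.C_pow, mul_assoc, Polynomial.coeff_C_mul, Polynomial.coeff_X_pow_mul',
    Polynomial.coeff_X_pow_mul']
  by_cases ha : a' = a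
  · subst ha
    obtain rfl : b = b' := by omega
    simp [cf_apply]
  · rw [if_neg ha]
    split_ifs with h1 h2
    · omega
    · exact Polynomial.coeff_zero _
    · rfl

lemma drop (hp : Function.Injective fun i => (x i, y i)) (N : ℕ) (k : Fin r → ℕ) (i : Fin r)
    (hN : ∑ j, k j ≤ N) :
    Module.finrank ℂ (W (fun j => ![x j, y j, 1]) N (Function.update k i (k i + 1))) + (k i + 1) ≤
      Module.finrank ℂ (W (fun j => ![x j, y j, 1]) N k) := by
  let Λ : W (fun j => ![x j, y j, 1]) N k →ₗ[ℂ] (Fin (k i + 1) → ℂ) :=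
    LinearMap.pi fun a => cf a (k i - a) ∘ₗ (tay (x i) (y i)).toLinearMap ∘ₗ Submodule.subtype _
  have h1 := LinearMap.finrank_range_add_finrank_ker Λ
  obtain ⟨U, hU, hU', hU0⟩ := exists_away hp i k (univ.erase i) (notMem_erase i _)
  have hsum := add_sum_erase univ k (mem_univ i)
  have h2 : LinearMap.range Λ = ⊤ := by
    rw [eq_top_iff, ← (Pi.basisFun ℂ (Fin (k i + 1))).span_eq, Submodule.span_le]
    rintro _ ⟨a, rfl⟩
    have ha : a.val ≤ k i := Nat.lt_succ_iff.mp a.isLt
    let f : R := (X 0 - C (x i) * X 2) ^ a.val * (X 1 - C (y i) * X 2) ^ (k i - a) *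
      (U * X 2 ^ (N - ∑ j, k j))
    have hf : f ∈ W (fun j => ![x j, y j, 1]) N k := by
      rw [mem_W]
      refine ⟨?_, fun j => ?_⟩
      · have h := (((lin_hom 0 (x i)).pow a).mul ((lin_hom 1 (y i)).pow (k i - a))).mul
          (hU.mul ((isHomogeneous_X ℂ (2 : Fin 3)).pow (N - ∑ j, k j)))
        rwa [show 1 * a.val + 1 * (k i - a) + (∑ j ∈ univ.erase i, k j + 1 * (N - ∑ j, k j)) = N
          by omega] at h
      · by_cases hj : j = i
        · subst hj
          refine Ideal.mul_mem_right _ _ ?_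
          have h := Ideal.mul_mem_mul (Ideal.pow_mem_pow (lin_mem0 (x j) (y j)) a)
            (Ideal.pow_mem_pow (lin_mem1 (x j) (y j)) (k j - a))
          rwa [← pow_add, Nat.add_sub_cancel' ha] at h
        · exact Ideal.mul_mem_left _ _
            (Ideal.mul_mem_right _ _ (hU' j (mem_erase.2 ⟨hj, mem_univ j⟩)))
    have e : tay (x i) (y i) f = Polynomial.C Polynomial.X ^ a.val * Polynomial.X ^ (k i - a) *
        tay (x i) (y i) U := by
      have e0 : tay (x i) (y i) (X 0 - C (x i) * X 2) = Polynomial.C Polynomial.X := by simp [tay]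
      have e1 : tay (x i) (y i) (X 1 - C (y i) * X 2) = Polynomial.X := by simp [tay]
      have e2 : tay (x i) (y i) (X 2) = 1 := by simp [tay]
      simp only [f, map_mul, map_pow, e0, e1, e2, one_pow, mul_one]
    refine ⟨(cf 0 0 (tay (x i) (y i) U))⁻¹ • ⟨f, hf⟩, ?_⟩
    rw [map_smul]
    funext a'
    have ha' : a'.val ≤ k i := Nat.lt_succ_iff.mp a'.isLt
    change _ * cf a' (k i - a') (tay (x i) (y i) f) = _
    rw [e, cf_mono _ (by omega), Pi.basisFun_apply, Pi.single_apply]
    by_cases h : a' = a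
    · rw [if_pos h, if_pos (congrArg _ h), inv_mul_cancel₀ hU0]
    · rw [if_neg h, if_neg fun h' => h (Fin.ext h'), mul_zero]
  have h3 : Module.finrank ℂ (W (fun j => ![x j, y j, 1]) N (Function.update k i (k i + 1))) ≤
      Module.finrank ℂ (LinearMap.ker Λ) := by
    rw [← Submodule.finrank_map_subtype_eq _ (LinearMap.ker Λ)]
    refine Submodule.finrank_mono fun f hf => ?_
    rw [mem_W] at hf
    have hi := hf.2 i
    rw [Function.update_self] at hi
    refine ⟨⟨f, (mem_W _ _ _ _).2 ⟨hf.1, fun j => ?_⟩⟩, ?_, rfl⟩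
    · by_cases hj : j = i
      · subst hj
        exact Ideal.pow_le_pow_right (Nat.le_succ _) hi
      · have h := hf.2 j
        rwa [Function.update_of_ne hj] at h
    · funext a
      have ha : a.val ≤ k i := Nat.lt_succ_iff.mp a.isLt
      exact tay_low hi (by omega)
  rw [h2, finrank_top, Module.finrank_fintype_fun_eq_card, Fintype.card_fin] at h1
  omega

lemma count_le (hp : Function.Injective fun i => (x i, y i)) (N t : ℕ) : ∀ k : Fin r → ℕ,
    ∑ j, k j = t → t ≤ N → 2 * Module.finrank ℂ (W (fun j => ![x j, y j, 1]) N k) +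
      ∑ j, k j * (k j + 1) ≤ (N + 1) * (N + 2) := by
  induction t with
  | zero =>
    intro k hk _
    have h0 : ∀ j, k j = 0 := fun j => sum_eq_zero_iff.1 hk j (mem_univ j)
    have h1 : Module.finrank ℂ (W (fun j => ![x j, y j, 1]) N k) ≤
        Module.finrank ℂ (homogeneousSubmodule (Fin 3) ℂ N) := Submodule.finrank_mono inf_le_left
    have h2 := finrank_homog_le N
    simp only [h0, zero_mul, sum_const_zero]
    exact (Nat.mul_le_mul_left 2 h1).trans h2
  | succ t ih =>
    intro k hk hN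
    obtain ⟨i, -, hi⟩ := exists_ne_zero_of_sum_ne_zero (s := univ) (f := k) (by omega)
    obtain ⟨c, hc⟩ : ∃ c, k i = c + 1 := Nat.exists_eq_succ_of_ne_zero hi
    have e1 : ∀ g : ℕ → ℕ, ∑ j, g (Function.update k i c j) + g (k i) = ∑ j, g (k j) + g c := by
      intro g
      rw [← add_sum_erase univ _ (mem_univ i), ← add_sum_erase univ (fun j => g (k j)) (mem_univ i),
        Function.update_self, sum_congr rfl fun j hj => by
          rw [Function.update_of_ne (mem_erase.1 hj).1]]
      omega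
    have h1 := e1 id
    have h2 := e1 fun n => n * (n + 1)
    simp only [id] at h1
    have h3 := ih (Function.update k i c) (by omega) (by omega)
    have h4 := drop hp N (Function.update k i c) i (by omega)
    rw [Function.update_self, Function.update_idem, ← hc,
      Function.update_eq_self] at h4
    rw [hc] at h2 h4
    nlinarith

lemma bezout_mult (hp : Function.Injective fun i => (x i, y i)) {d e : ℕ} {m a : Fin r → ℕ}
    {G D : R} (hG : G ∈ W (fun j => ![x j, y j, 1]) d m) (hD : D ∈ W (fun j => ![x j, y j, 1]) e a)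
    (hD' : Prime D) (hn : ¬ D ∣ G) : ∑ i, m i * a i ≤ d * e := by
  rw [mem_W] at hG hD
  obtain ⟨M, hM⟩ : ∃ M, M = ∑ j, (m j + a j) := ⟨_, rfl⟩
  let p : Fin r → Fin 3 → ℂ := fun j => ![x j, y j, 1]
  let ι : (W p (e + M) a × W p (d + M) m) →ₗ[ℂ] R × R :=
    (W p (e + M) a).subtype.prodMap (W p (d + M) m).subtype
  have hι : Function.Injective ι := Subtype.val_injective.prodMap Subtype.val_injective
  let Φ : (W p (e + M) a × W p (d + M) m) →ₗ[ℂ] W p (d + e + M) fun j => m j + a j :=
    (((LinearMap.mulLeft ℂ G).coprod (LinearMap.mulLeft ℂ D)).comp ι).codRestrict _ fun z => by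
      have h1 := (mem_W _ _ _ _).1 z.1.2
      have h2 := (mem_W _ _ _ _).1 z.2.2
      change G * z.1.1 + D * z.2.1 ∈ _
      refine Submodule.add_mem _ ((mem_W _ _ _ _).2 ⟨?_, fun j => ?_⟩)
        ((mem_W _ _ _ _).2 ⟨?_, fun j => ?_⟩)
      · rw [add_assoc]
        exact hG.1.mul h1.1
      · rw [pow_add]
        exact Ideal.mul_mem_mul (hG.2 j) (h1.2 j)
      · rw [add_comm d e, add_assoc]
        exact hD.1.mul h2.1
      · rw [add_comm, pow_add]
        exact Ideal.mul_mem_mul (hD.2 j) (h2.2 j)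
  let ψ : homogeneousSubmodule (Fin 3) ℂ M →ₗ[ℂ] R × R :=
    ((LinearMap.mulLeft ℂ D).prod (LinearMap.mulLeft ℂ (-G))).comp (Submodule.subtype _)
  have h1 : (LinearMap.ker Φ).map ι ≤ LinearMap.range ψ := by
    rintro _ ⟨z, hz, rfl⟩
    have h2 : G * z.1.1 + D * z.2.1 = 0 := congrArg Subtype.val hz
    have h3 : D ∣ G * z.1.1 := ⟨-z.2.1, by linear_combination h2⟩
    obtain ⟨w, hw⟩ := (hD'.dvd_or_dvd h3).resolve_left hn
    have h4 := ((mem_W _ _ _ _).1 z.1.2).1
    rw [hw] at h4 h2
    refine ⟨⟨w, hom_of_mul hD.1 hD'.ne_zero h4⟩, Prod.ext hw.symm ?_⟩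
    change -G * w = z.2.1
    exact mul_left_cancel₀ hD'.ne_zero (by linear_combination -h2)
  have h2 := Submodule.finrank_mono h1
  rw [← (Submodule.equivMapOfInjective ι hι _).finrank_eq] at h2
  have h3 := LinearMap.finrank_range_le ψ
  have h4 := LinearMap.finrank_range_add_finrank_ker Φ
  have h5 := Submodule.finrank_le (LinearMap.range Φ)
  rw [Module.finrank_prod] at h4
  have h6 := finrank_homog_le M
  have h7 := count x y (e + M) a
  have h8 := count x y (d + M) m
  have h9 := count_le hp (d + e + M) M (fun j => m j + a j) hM.symm (by omega)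
  have h10 : ∑ j, (m j + a j) * (m j + a j + 1) =
      ∑ j, m j * (m j + 1) + ∑ j, a j * (a j + 1) + 2 * ∑ j, m j * a j := by
    rw [mul_sum, ← sum_add_distrib, ← sum_add_distrib]
    exact sum_congr rfl fun j _ => by ring
  change _ ≤ 2 * Module.finrank ℂ (W p (e + M) a) + _ at h7
  change _ ≤ 2 * Module.finrank ℂ (W p (d + M) m) + _ at h8
  change 2 * Module.finrank ℂ (W p (d + e + M) fun j => m j + a j) + _ ≤ _ at h9
  nlinarith

end Pool.Agent.Lib.MP_fa7d23_ag.Ten
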