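import Pool.Agent.Lib.MP_fa7d23_ag.Ten.Tay

set_option autoImplicit false

/-! A criterion for absolute irreducibility in characteristic seventeen. -/

namespace Pool.Agent.Lib.MP_fa7d23_ag.Ten
open MvPolynomial Finset

variable {Ω : Type} [Field Ω]

/-- Restriction to a vertical line. -/
noncomputable def line (x : Ω) : MvPolynomial (Fin 3) Ω →ₐ[Ω] Polynomial Ω :=
  aeval ![Polynomial.C x, Polynomial.X, 1]

lemma line_deg (x : Ω) (f : MvPolynomial (Fin 3) Ω) : (line x f).natDegree ≤ f.totalDegree := by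
  have h := aeval_natDegree_le f le_rfl ![Polynomial.C x, Polynomial.X, 1] (n := 1) fun i => by
    fin_cases i <;> simp
  rwa [mul_one] at h

lemma line_eval (x t : Ω) (f : MvPolynomial (Fin 3) Ω) :
    (line x f).eval t = eval ![x, t, 1] f := by
  induction f using MvPolynomial.induction_on with
  | C a => simp [line]
  | add p r hp hr => simp [hp, hr]
  | mul_X p i hp =>
    rw [map_mul, map_mul, Polynomial.eval_mul, hp]
    congr 1
    fin_cases i <;> simp [line]

lemma exists_prime_zero (s : Fin 3 → Ω) (G : MvPolynomial (Fin 3) Ω) :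
    G ≠ 0 → eval s G = 0 → ∃ D, Prime D ∧ D ∣ G ∧ eval s D = 0 := by
  induction G using UniqueFactorizationMonoid.induction_on_prime with
  | h₁ => exact fun h => absurd rfl h
  | h₂ u hu => exact fun _ h => absurd h (hu.map (eval s)).ne_zero
  | h₃ a p ha hp ih =>
    intro _ h
    rw [map_mul] at h
    rcases mul_eq_zero.1 h with h | h
    · exact ⟨p, hp, dvd_mul_right _ _, h⟩
    · obtain ⟨D, h1, h2, h3⟩ := ih ha h
      exact ⟨D, h1, h2.mul_left _, h3⟩

theorem irr_core [IsAlgClosed Ω] [CharP Ω 17] {A B : MvPolynomial (Fin 3) Ω} {e e' : ℕ}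
    (hA : A.IsHomogeneous e) (hB : B.IsHomogeneous e') (z : ℕ → ℕ → ℤ) (x u v : ℤ)
    (h : A * B = form (e + e') fun a b => (z a b : Ω))
    (hdeg : (line (x : Ω) (A * B)).coeff (e + e') ≠ 0)
    (hroot : ∀ α : Ω, (line (x : Ω) (A * B)).eval α = 0 →
      Set.InjOn (fun k => (fun t : Ω => t ^ 17)^[k] α) (Set.Iio (e + e')))
    (h0 : (line (u : Ω) (A * B)).eval (v : Ω) = 0)
    (h1 : (line (u : Ω) (A * B)).derivative.eval (v : Ω) ≠ 0) : e = 0 ∨ e' = 0 := by
  have : Fact (Nat.Prime 17) := ⟨by norm_num⟩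
  have hG : A * B ≠ 0 := fun h' => hdeg (by rw [h', map_zero, Polynomial.coeff_zero])
  rw [line_eval] at h0
  obtain ⟨D, hD, ⟨E, hE⟩, hD0⟩ := exists_prime_zero _ _ hG h0
  have hφ : ∀ (w : ℤ) (t : Ω) (f : MvPolynomial (Fin 3) Ω),
      eval ![(w : Ω), t ^ 17, 1] (map (frobenius Ω 17) f) = eval ![(w : Ω), t, 1] f ^ 17 := by
    intro w t f
    rw [← frobenius_def, ← frobenius_def, map_eval (frobenius Ω 17)]
    congr 2
    funext i
    fin_cases i <;> simp
  have hD' : Prime (map (frobenius Ω 17) D) :=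
    (MulEquiv.prime_iff (mapEquiv (Fin 3) (frobeniusEquiv Ω 17))).2 hD
  have h2 : map (frobenius Ω 17) D ∣ D * E := by
    have h3 : map (frobenius Ω 17) (A * B) = A * B := by
      simp only [h, map_form, map_intCast]
    rw [← hE, ← h3]
    exact map_dvd _ ⟨E, hE⟩
  have h3 : map (frobenius Ω 17) D ∣ D := by
    refine (hD'.dvd_or_dvd h2).resolve_right ?_
    rintro ⟨H, rfl⟩
    have h4 := hφ u v D
    rw [hD0, zero_pow (by norm_num), ← frobenius_def, map_intCast, ← line_eval] at h4
    rw [← line_eval] at hD0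
    apply h1
    rw [hE]
    simp [Polynomial.derivative_mul, hD0, h4]
  have h4 : ∀ t : Ω, (line (x : Ω) D).eval t = 0 → (line (x : Ω) D).eval (t ^ 17) = 0 := by
    intro t ht
    obtain ⟨H, hH⟩ := h3
    rw [line_eval] at ht ⊢
    rw [hH, map_mul, hφ, ht, zero_pow (by norm_num), zero_mul]
  have hE0 : E ≠ 0 := fun h' => hG (by rw [hE, h', mul_zero])
  have h5 : D.totalDegree + E.totalDegree = e + e' := by
    rw [← totalDegree_mul_of_isDomain hD.ne_zero hE0, ← hE]
    exact (hA.mul hB).totalDegree hG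
  have h6 := Polynomial.le_natDegree_of_ne_zero hdeg
  have h7 : line (x : Ω) D * line (x : Ω) E ≠ 0 := by
    rw [← map_mul, ← hE]
    exact fun h' => hdeg (by rw [h', Polynomial.coeff_zero])
  rw [hE, map_mul, Polynomial.natDegree_mul (left_ne_zero_of_mul h7) (right_ne_zero_of_mul h7)]
    at h6
  have h8 := line_deg (x : Ω) D
  have h9 := line_deg (x : Ω) E
  have h10 : D.totalDegree ≠ 0 := fun h' => by
    rw [totalDegree_eq_zero_iff_eq_C] at h'
    rw [h', eval_C] at hD0
    exact hD.ne_zero (by rw [h', hD0, C_0])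
  obtain ⟨α, hα⟩ := IsAlgClosed.exists_root (line (x : Ω) D)
    (Polynomial.degree_ne_of_natDegree_ne (n := 0) (by omega))
  have h11 : ∀ k, (line (x : Ω) D).eval ((fun t : Ω => t ^ 17)^[k] α) = 0 := fun k => by
    induction k with
    | zero => exact hα
    | succ k ih =>
      rw [Function.iterate_succ_apply']
      exact h4 _ ih
  classical
  have h12 := Polynomial.card_le_degree_of_subset_roots (p := line (x : Ω) D)
    (Z := (range (e + e')).image fun k => (fun t : Ω => t ^ 17)^[k] α) fun t ht => by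
      obtain ⟨k, -, rfl⟩ := mem_image.1 (mem_def.2 ht)
      exact (Polynomial.mem_roots (left_ne_zero_of_mul h7)).2 (h11 k)
  rw [card_image_of_injOn (by
    rw [coe_range]
    exact hroot α (by rw [hE, map_mul, Polynomial.eval_mul, hα.eq_zero, zero_mul])),
    card_range] at h12
  rcases hD.dvd_or_dvd (⟨E, hE⟩ : D ∣ A * B) with h13 | h13
  · have h14 := totalDegree_le_of_dvd_of_isDomain h13 (left_ne_zero_of_mul hG)
    have h15 := hA.totalDegree_le
    omega
  · have h14 := totalDegree_le_of_dvd_of_isDomain h13 (right_ne_zero_of_mul hG)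
    have h15 := hB.totalDegree_le
    omega

lemma line_form (x : ℤ) (n : ℕ) (z : ℕ → ℕ → ℤ) :
    line (x : Ω) (form n fun a b => (z a b : Ω)) = ∑ b ∈ range (n + 1),
      Polynomial.monomial b ((∑ a ∈ range (n + 1), z a b * x ^ a : ℤ) : Ω) := by
  rw [line, aeval_form, sum_comm]
  refine sum_congr rfl fun b _ => ?_
  rw [Int.cast_sum, map_sum]
  refine sum_congr rfl fun a _ => ?_
  rw [Polynomial.algebraMap_eq, ← Polynomial.C_pow, ← mul_assoc, ← Polynomial.C_mul,
    Polynomial.C_mul_X_pow_eq_monomial]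
  push_cast
  rfl

end Pool.Agent.Lib.MP_fa7d23_ag.Ten
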