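import Pool.Agent.Lib.MP_fa7d23_ag.Ten.Tay

set_option autoImplicit false

/-! Reduction of complex forms to characteristic seventeen. -/

namespace Pool.Agent.Lib.MP_fa7d23_ag.Ten
open MvPolynomial Finset

lemma exists_red : ∃ (V : ValuationSubring ℂ) (Ω : Type) (_ : Field Ω) (_ : IsAlgClosed Ω)
    (_ : CharP Ω 17), Nonempty (V →+* Ω) := by
  have h1 : (Ideal.span {17} : Ideal (⊥ : Subring ℂ)) ≠ ⊤ := by
    rw [Ne, Ideal.eq_top_iff_one, Ideal.mem_span_singleton']
    rintro ⟨⟨a, ha⟩, h⟩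
    obtain ⟨n, rfl⟩ := Subring.mem_bot.1 ha
    have h2 : (n : ℂ) * 17 = 1 := congrArg Subtype.val h
    have h3 : n * 17 = 1 := by exact_mod_cast h2
    omega
  obtain ⟨V, -, hV⟩ := Ideal.image_subset_nonunits_valuationSubring _ h1
  have h2 : (17 : ℂ) ∈ V.nonunits := hV ⟨17, Ideal.subset_span rfl, rfl⟩
  have h3 : (17 : V) ∈ IsLocalRing.maximalIdeal V := V.coe_mem_nonunits_iff.1 h2
  let ρ : V →+* AlgebraicClosure (IsLocalRing.ResidueField V) :=
    (algebraMap (IsLocalRing.ResidueField V) _).comp (IsLocalRing.residue V)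
  have h4 : ((17 : ℕ) : AlgebraicClosure (IsLocalRing.ResidueField V)) = 0 := by
    rw [← map_natCast ρ, RingHom.comp_apply]
    exact (congrArg _ ((IsLocalRing.residue_eq_zero_iff _).2 h3)).trans (map_zero _)
  exact ⟨V, _, inferInstance, inferInstance,
    (CharP.charP_iff_prime_eq_zero (by norm_num)).2 h4, ⟨ρ⟩⟩

lemma exists_prim (V : ValuationSubring ℂ) {f : R} (hf : f ≠ 0) :
    ∃ (c : ℂ) (g : MvPolynomial (Fin 3) V) (d : Fin 3 →₀ ℕ), c ≠ 0 ∧
      f = C c * map V.subtype g ∧ coeff d g = 1 := by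
  obtain ⟨d, hd, hmax⟩ := exists_max_image f.support (fun s => V.valuation (coeff s f))
    (support_nonempty.2 hf)
  have h0 : coeff d f ≠ 0 := mem_support_iff.1 hd
  obtain ⟨g, hg⟩ : C (coeff d f)⁻¹ * f ∈ Set.range (map V.subtype) := by
    rw [mem_range_map_iff_coeffs_subset]
    intro c hc
    obtain ⟨s, hs, rfl⟩ := mem_coeffs_iff.1 hc
    rw [mem_support_iff, coeff_C_mul] at hs
    refine ⟨⟨(coeff d f)⁻¹ * coeff s f, (V.valuation_le_one_iff _).1 ?_⟩,
      (coeff_C_mul _ _ _).symm⟩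
    rw [map_mul, map_inv₀,
      inv_mul_le_one₀ (zero_lt_iff.2 ((map_ne_zero _).2 h0))]
    exact hmax s (mem_support_iff.2 (right_ne_zero_of_mul hs))
  refine ⟨_, g, d, h0, ?_, Subtype.ext ?_⟩
  · rw [hg, ← mul_assoc, ← C_mul, mul_inv_cancel₀ h0, C_1, one_mul]
  · have h := congrArg (coeff d) hg
    rw [coeff_map, coeff_C_mul, inv_mul_cancel₀ h0] at h
    exact h

lemma prim_hom {V : ValuationSubring ℂ} {c : ℂ} {g : MvPolynomial (Fin 3) V} {n : ℕ} (hc : c ≠ 0)
    (h : (C c * map V.subtype g).IsHomogeneous n) : g.IsHomogeneous n := by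
  refine IsHomogeneous.of_map (f := V.subtype) Subtype.val_injective ?_
  refine hom_of_mul (isHomogeneous_C _ c) (by simpa using hc) ?_
  rwa [zero_add]

/-- A factorisation of an integral form gives a factorisation of its reduction. -/
lemma red_factor {V : ValuationSubring ℂ} {Ω : Type} [Field Ω] (ρ : V →+* Ω) {n e e' : ℕ}
    (z : ℕ → ℕ → ℤ) {A B : R} {c : ℂ} (hA : A.IsHomogeneous e) (hB : B.IsHomogeneous e')
    (hA0 : A ≠ 0) (hB0 : B ≠ 0) (h : A * B = C c * form n fun a b => (z a b : ℂ)) :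
    ∃ A' B' : MvPolynomial (Fin 3) Ω, A'.IsHomogeneous e ∧ B'.IsHomogeneous e' ∧
      A' * B' = form n fun a b => (z a b : Ω) := by
  obtain ⟨a, A₁, d, ha, rfl, hd⟩ := exists_prim V hA0
  obtain ⟨b, B₁, d', hb, rfl, hd'⟩ := exists_prim V hB0
  have h1 := (prim_hom ha hA).map ρ
  have h2 := (prim_hom hb hB).map ρ
  have h3 : (form n fun a b => (z a b : ℂ)) = map V.subtype (form n fun a b => (z a b : V)) := by
    simp only [map_form, map_intCast]
  have h4 : map ρ (form n fun a b => (z a b : V)) = form n fun a b => (z a b : Ω) := by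
    simp only [map_form, map_intCast]
  have hi := map_injective (σ := Fin 3) V.subtype Subtype.val_injective
  have hc : c ≠ 0 := by
    rintro rfl
    rw [C_0, zero_mul] at h
    exact mul_ne_zero hA0 hB0 h
  rw [h3] at h
  rcases V.mem_or_inv_mem (a * b / c) with h5 | h5
  · have h6 : C (⟨_, h5⟩ : V) * A₁ * B₁ = form n fun a b => (z a b : V) := by
      refine hi (mul_left_cancel₀ (a := C c) (by simpa using hc) ?_)
      rw [← h, map_mul, map_mul, map_C, ← mul_assoc, ← mul_assoc, ← C_mul]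
      change C (c * (a * b / c)) * _ * _ = _
      rw [mul_div_cancel₀ _ hc, C_mul]
      ring
    refine ⟨C (ρ ⟨_, h5⟩) * map ρ A₁, map ρ B₁, h1.C_mul _, h2, ?_⟩
    rw [← h4, ← h6, map_mul, map_mul, map_C]
  · have h6 : A₁ * B₁ = C (⟨_, h5⟩ : V) * form n fun a b => (z a b : V) := by
      refine hi (mul_left_cancel₀ (a := C (a * b)) (by simpa using ⟨ha, hb⟩) ?_)
      rw [map_mul (map V.subtype), map_mul (map V.subtype), map_C,
        ← mul_assoc (C (a * b)) (C _), ← C_mul]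
      change _ = C (a * b * (a * b / c)⁻¹) * _
      rw [inv_div, mul_div_cancel₀ _ (mul_ne_zero ha hb), ← h, C_mul]
      ring
    have h7 := congrArg (map ρ) h6
    rw [map_mul, map_mul, map_C, h4] at h7
    have h8 : ρ ⟨_, h5⟩ ≠ 0 := by
      intro h0
      rw [h0, C_0, zero_mul] at h7
      rcases mul_eq_zero.1 h7 with h9 | h9
      · have h10 := congrArg (coeff d) h9
        rw [coeff_map, hd, map_one, coeff_zero] at h10
        exact one_ne_zero h10
      · have h10 := congrArg (coeff d') h9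
        rw [coeff_map, hd', map_one, coeff_zero] at h10
        exact one_ne_zero h10
    refine ⟨C (ρ ⟨_, h5⟩)⁻¹ * map ρ A₁, map ρ B₁, h1.C_mul _, h2, ?_⟩
    rw [mul_assoc, h7, ← mul_assoc, ← C_mul, inv_mul_cancel₀ h8, C_1, one_mul]

end Pool.Agent.Lib.MP_fa7d23_ag.Ten
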