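import Mathlib

set_option autoImplicit false

/-! The Frobenius orbit of a root of a polynomial of degree 21 in characteristic seventeen. -/

namespace Pool.Agent.Lib.MP_fa7d23_ag.Ten
open Finset

/-- Sum of two lists of coefficients. -/
def padd : List ℕ → List ℕ → List ℕ
  | [], m => m
  | a :: l, [] => a :: l
  | a :: l, b :: m => (a + b) % 17 :: padd l m

/-- Product of two lists of coefficients. -/
def pmul : List ℕ → List ℕ → List ℕ
  | [], _ => []
  | a :: l, m => padd (m.map (a * ·)) (0 :: pmul l m)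

/-- The twenty-first power of the root. -/
def ww : List ℕ := [8, 13, 12, 1, 4, 14, 0, 13, 12, 15, 15, 1, 16, 13, 5, 12, 15, 2, 16, 14, 0]

/-- One step of reduction. -/
def red (l : List ℕ) : List ℕ := padd (l.take 21) (pmul (l.drop 21) ww)

/-- The powers of the seventeenth power of the root. -/
def tab : ℕ → List ℕ → List (List ℕ)
  | 0, _ => []
  | k + 1, q => q :: tab k ((fun l => red (0 :: l))^[17] q)

/-- A linear combination. -/
def comb : List ℕ → List (List ℕ) → List ℕ
  | c :: l, q :: Q => padd (q.map (c * ·)) (comb l Q)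
  | _, _ => []

/-- The Frobenius map. -/
def fr (l : List ℕ) : List ℕ := comb l (tab 21 [1])

variable {Ω : Type} [Field Ω] [CharP Ω 17] (α : Ω)

/-- Evaluation. -/
def ev (l : List ℕ) : Ω := l.foldr (fun (c : ℕ) t => (c : Ω) + α * t) 0

omit [CharP Ω 17] in
lemma ev_cons (c : ℕ) (l : List ℕ) : ev α (c :: l) = c + α * ev α l := rfl

lemma ev_padd : ∀ l m : List ℕ, ev α (padd l m) = ev α l + ev α m
  | [], m => (zero_add _).symm
  | _ :: _, [] => (add_zero _).symm
  | a :: l, b :: m => by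
    rw [padd, ev_cons, ev_cons, ev_cons, ev_padd l m, ← CharP.cast_eq_mod Ω 17, Nat.cast_add]
    ring

omit [CharP Ω 17] in
lemma ev_map (a : ℕ) : ∀ m : List ℕ, ev α (m.map (a * ·)) = a * ev α m
  | [] => (mul_zero _).symm
  | b :: m => by
    rw [List.map_cons, ev_cons, ev_cons, ev_map a m, Nat.cast_mul]
    ring

lemma ev_pmul : ∀ l m : List ℕ, ev α (pmul l m) = ev α l * ev α m
  | [], m => (zero_mul _).symm
  | a :: l, m => by
    rw [pmul, ev_padd, ev_map, ev_cons, ev_cons, ev_pmul l m, Nat.cast_zero]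
    ring

omit [CharP Ω 17] in
lemma ev_take : ∀ (n : ℕ) (l : List ℕ), ev α (l.take n) + α ^ n * ev α (l.drop n) = ev α l
  | 0, l => by simp [ev]
  | n + 1, [] => by simp [ev]
  | n + 1, a :: l => by
    rw [List.take_succ_cons, List.drop_succ_cons, ev_cons, ev_cons, ← ev_take n l]
    ring

omit [CharP Ω 17] in
lemma ev_sum : ∀ (l : List ℕ), ev α l = ∑ b ∈ range l.length, (l.getD b 0 : Ω) * α ^ b
  | [] => rfl
  | a :: l => by
    rw [List.length_cons, sum_range_succ', ev_cons, ev_sum l, mul_sum, add_comm]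
    simp only [List.getD_cons_succ, List.getD_cons_zero, pow_zero, mul_one, pow_succ]
    congr 1
    exact sum_congr rfl fun b _ => by ring

variable {α} (h : α ^ 21 = ev α ww)
include h

lemma ev_red (l : List ℕ) : ev α (red l) = ev α l := by
  rw [red, ev_padd, ev_pmul, ← h, mul_comm, ev_take]

lemma ev_reds (n : ℕ) (l : List ℕ) : ev α (red^[n] l) = ev α l := by
  induction n with
  | zero => rfl
  | succ n ih => rw [Function.iterate_succ_apply', ev_red h, ih]

lemma ev_shift (n : ℕ) (l : List ℕ) : ev α ((fun l => red (0 :: l))^[n] l) = α ^ n * ev α l := by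
  induction n with
  | zero => exact (one_mul _).symm.trans (by rw [pow_zero]; rfl)
  | succ n ih =>
    rw [Function.iterate_succ_apply', ev_red h, ev_cons, ih, Nat.cast_zero]
    ring

lemma ev_comb : ∀ (k : ℕ) (l q : List ℕ), l.length ≤ k →
    ev α (comb l (tab k q)) = ev α q * ev α l ^ 17
  | _, [], q, _ => by simp [comb, ev]
  | 0, _ :: _, _, hl => absurd hl (by simp)
  | k + 1, c :: l, q, hl => by
    have : Fact (Nat.Prime 17) := ⟨by norm_num⟩
    have e : (c : Ω) ^ 17 = c := by rw [← frobenius_def, map_natCast]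
    rw [tab, comb, ev_padd, ev_map, ev_comb k l _ (by simpa using hl), ev_shift h, ev_cons,
      add_pow_char, e]
    ring

omit h in
lemma fr_len : ∀ k < 21, (fr^[k] [0, 1]).length ≤ 21 := by decide +kernel

lemma ev_fr (k : ℕ) (hk : k ≤ 21) : ev α (fr^[k] [0, 1]) = (fun t : Ω => t ^ 17)^[k] α := by
  induction k with
  | zero => simp [ev]
  | succ k ih =>
    rw [Function.iterate_succ_apply', Function.iterate_succ_apply', fr,
      ev_comb h _ _ _ (fr_len k hk), ih (by omega)]
    simp [ev]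

lemma not_fixed {k : ℕ} (hk : k ≤ 21) (u : List ℕ)
    (hu : red^[20] (pmul u (padd (fr^[k] [0, 1]) [0, 16])) = 1 :: List.replicate 20 0) :
    (fun t : Ω => t ^ 17)^[k] α ≠ α := fun h1 => by
  have h2 := congrArg (ev α) hu
  have h3 : (17 : Ω) = 0 := CharP.cast_eq_zero Ω 17
  rw [ev_reds h, ev_pmul, ev_padd, ev_fr h k hk, h1] at h2
  generalize ev α u = s at h2
  simp [ev] at h2
  exact one_ne_zero (α := Ω) (by linear_combination -h2 + s * α * h3)

theorem orbit_inj : Set.InjOn (fun k => (fun t : Ω => t ^ 17)^[k] α) (Set.Iio 21) := by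
  have h1 : Function.IsPeriodicPt (fun t : Ω => t ^ 17) 21 α := by
    have e : fr^[21] [0, 1] = 0 :: 1 :: List.replicate 19 0 := by decide +kernel
    have h2 := ev_fr h 21 le_rfl
    rw [e] at h2
    refine h2.symm.trans ?_
    simp [ev]
  have h3 := not_fixed h (k := 3) (by norm_num)
    [0, 7, 9, 16, 11, 16, 2, 5, 3, 13, 4, 5, 2, 8, 11, 11, 7, 0, 5, 0, 4] (by decide +kernel)
  have h7 := not_fixed h (k := 7) (by norm_num)
    [0, 10, 1, 2, 7, 4, 1, 2, 13, 2, 9, 0, 2, 12, 8, 13, 14, 11, 12, 11, 16] (by decide +kernel)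
  have h4 := h1.minimalPeriod_dvd
  have h5 : ¬ Function.minimalPeriod (fun t : Ω => t ^ 17) α ∣ 3 := fun h' =>
    h3 (Function.isPeriodicPt_iff_minimalPeriod_dvd.2 h')
  have h6 : ¬ Function.minimalPeriod (fun t : Ω => t ^ 17) α ∣ 7 := fun h' =>
    h7 (Function.isPeriodicPt_iff_minimalPeriod_dvd.2 h')
  have h8 : ∀ n ≤ 21, n ∣ 21 → ¬ n ∣ 3 → ¬ n ∣ 7 → n = 21 := by decide
  rw [← h8 _ (Nat.le_of_dvd (by norm_num) h4) h4 h5 h6]
  exact Function.iterate_injOn_Iio_minimalPeriod

end Pool.Agent.Lib.MP_fa7d23_ag.Ten
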