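import Pool.Agent.Lib.MP_fa7d23_ag.Ten.InvA
import Pool.Agent.Lib.MP_fa7d23_ag.Ten.InvB
import Pool.Agent.Lib.MP_fa7d23_ag.Ten.InvC
import Pool.Agent.Lib.MP_fa7d23_ag.Ten.InvD
import Pool.Agent.Lib.MP_fa7d23_ag.Ten.Prim
import Pool.Agent.Lib.MP_fa7d23_ag.Ten.Irr
import Pool.Agent.Lib.MP_fa7d23_ag.Ten.Rab

set_option autoImplicit false

/-! The form of degree 21 is unique and irreducible. -/

namespace Pool.Agent.Lib.MP_fa7d23_ag.Ten
open MvPolynomial Finset

section charp
variable {Ω : Type} [Field Ω] [CharP Ω 17]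

lemma all_zero {w : ℕ → ℕ → Ω} (hw : ∀ k : Fin 10, ∀ i j, i + j < pm k →
    ∑ a ∈ range 22, ∑ b ∈ range 22,
      w a b * (((px k : Ω) ^ (a - i) * a.choose i) * ((py k : Ω) ^ (b - j) * b.choose j)) = 0)
    (h0 : ∀ a b, 21 < a + b ∨ b = 21 → w a b = 0) (a b : ℕ) : w a b = 0 := by
  by_cases h : 21 < a + b ∨ b = 21
  · exact h0 a b h
  have hab : a + b ≤ 21 := by omega
  have ha : a ≤ 21 := by omega
  interval_cases a
  · exact chk_zero hw h0 _ inv0 0 chk0 b (Nat.zero_le _) (by change b < 21; omega) hab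
  · exact chk_zero hw h0 _ inv1 0 chk1 b (Nat.zero_le _) (by change b < 21; omega) hab
  · exact chk_zero hw h0 _ inv2 0 chk2 b (Nat.zero_le _) (by change b < 20; omega) hab
  · exact chk_zero hw h0 _ inv3 0 chk3 b (Nat.zero_le _) (by change b < 19; omega) hab
  · exact chk_zero hw h0 _ inv4 0 chk4 b (Nat.zero_le _) (by change b < 18; omega) hab
  · exact chk_zero hw h0 _ inv5 0 chk5 b (Nat.zero_le _) (by change b < 17; omega) hab
  · exact chk_zero hw h0 _ inv6 0 chk6 b (Nat.zero_le _) (by change b < 16; omega) hab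
  · exact chk_zero hw h0 _ inv7 0 chk7 b (Nat.zero_le _) (by change b < 15; omega) hab
  · exact chk_zero hw h0 _ inv8 0 chk8 b (Nat.zero_le _) (by change b < 14; omega) hab
  · exact chk_zero hw h0 _ inv9 0 chk9 b (Nat.zero_le _) (by change b < 13; omega) hab
  · exact chk_zero hw h0 _ inv10 0 chk10 b (Nat.zero_le _) (by change b < 12; omega) hab
  · exact chk_zero hw h0 _ inv11 0 chk11 b (Nat.zero_le _) (by change b < 11; omega) hab
  · exact chk_zero hw h0 _ inv12 0 chk12 b (Nat.zero_le _) (by change b < 10; omega) hab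
  · exact chk_zero hw h0 _ inv13 0 chk13 b (Nat.zero_le _) (by change b < 9; omega) hab
  · exact chk_zero hw h0 _ inv14 0 chk14 b (Nat.zero_le _) (by change b < 8; omega) hab
  · exact chk_zero hw h0 _ inv15 0 chk15 b (Nat.zero_le _) (by change b < 7; omega) hab
  · exact chk_zero hw h0 _ inv16 0 chk16 b (Nat.zero_le _) (by change b < 6; omega) hab
  · exact chk_zero hw h0 _ inv17 0 chk17 b (Nat.zero_le _) (by change b < 5; omega) hab
  · exact chk_zero hw h0 _ inv18 0 chk18 b (Nat.zero_le _) (by change b < 4; omega) hab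
  · exact chk_zero hw h0 _ inv19 0 chk19 b (Nat.zero_le _) (by change b < 3; omega) hab
  · exact chk_zero hw h0 _ inv20 0 chk20 b (Nat.zero_le _) (by change b < 2; omega) hab
  · exact chk_zero hw h0 _ inv21 0 chk21 b (Nat.zero_le _) (by change b < 1; omega) hab

/-- The coefficients of the restriction to a vertical line. -/
def uz (x : ℤ) (b : ℕ) : ℤ := ∑ a ∈ range (21 + 1), gz a b * x ^ a

lemma irr_mod [IsAlgClosed Ω] {A B : MvPolynomial (Fin 3) Ω} {e e' : ℕ} (hA : A.IsHomogeneous e)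
    (hB : B.IsHomogeneous e') (he : e + e' = 21) (h : A * B = form 21 fun a b => (gz a b : Ω)) :
    e = 0 ∨ e' = 0 := by
  have hl : ∀ x : ℤ, line (x : Ω) (A * B) =
      ∑ b ∈ range (21 + 1), Polynomial.monomial b (uz x b : Ω) := fun x => by
    rw [h, line_form]
    rfl
  have h21 : (uz 6 21 : Ω) ≠ 0 := by
    rw [Ne, CharP.intCast_eq_zero_iff Ω 17]
    decide +kernel
  refine irr_core hA hB gz 6 1 5 (he ▸ h) ?_ (fun α hα => ?_) ?_ ?_
  · rw [he, hl, Polynomial.finsetSum_coeff, sum_eq_single 21, Polynomial.coeff_monomial,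
      if_pos rfl]
    · exact h21
    · exact fun b _ hb => by rw [Polynomial.coeff_monomial, if_neg hb]
    · simp
  · rw [he]
    refine orbit_inj (mul_left_cancel₀ h21 ?_)
    rw [hl, Polynomial.eval_finsetSum, sum_range_succ] at hα
    simp only [Polynomial.eval_monomial] at hα
    have hc : ∀ b < 21, (17 : ℤ) ∣ uz 6 b + uz 6 21 * (ww.getD b 0 : ℕ) := by decide +kernel
    have h1 : ∑ b ∈ range 21, (uz 6 b : Ω) * α ^ b + uz 6 21 * ev α ww = 0 := by
      rw [ev_sum, show ww.length = 21 from rfl, mul_sum, ← sum_add_distrib]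
      refine sum_eq_zero fun b hb => ?_
      have h2 := (CharP.intCast_eq_zero_iff Ω 17 _).2 (hc b (mem_range.1 hb))
      push_cast at h2
      linear_combination α ^ b * h2
    linear_combination hα - h1
  · have h1 : (17 : ℤ) ∣ ∑ b ∈ range (21 + 1), uz 1 b * 5 ^ b := by decide +kernel
    have h2 := (CharP.intCast_eq_zero_iff Ω 17 _).2 h1
    rw [hl, Polynomial.eval_finsetSum]
    simp only [Polynomial.eval_monomial]
    rw [← h2, Int.cast_sum]
    simp only [Int.cast_mul, Int.cast_pow]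
  · have h1 : ¬ (17 : ℤ) ∣ ∑ b ∈ range (21 + 1), uz 1 b * b * 5 ^ (b - 1) := by decide +kernel
    refine fun h3 => h1 ((CharP.intCast_eq_zero_iff Ω 17 _).1 ?_)
    rw [hl, Polynomial.derivative_sum, Polynomial.eval_finsetSum] at h3
    simp only [Polynomial.derivative_monomial, Polynomial.eval_monomial] at h3
    rw [← h3, Int.cast_sum]
    simp only [Int.cast_mul, Int.cast_pow, Int.cast_natCast]

end charp

lemma tz_cast (n : ℕ) (z : ℕ → ℕ → ℤ) (x y : ℤ) (i j : ℕ) :
    cf i j (tay x y (form n fun a b => (z a b : ℂ))) = (tz n z x y i j : ℂ) := by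
  rw [tay_form, tz, sum_comm]
  simp only [ch_eq, Int.cast_sum, Int.cast_mul, Int.cast_pow, Int.cast_natCast, sum_mul, mul_assoc]

/-- The form of degree 21. -/
noncomputable def GG : R := form 21 fun a b => (gz a b : ℂ)

lemma GG_hom : GG.IsHomogeneous 21 :=
  form_hom _ _ fun a b h => by rw [gz, if_neg (by omega), Int.cast_zero]

lemma GG_mem (k : Fin 10) : GG ∈ I ![(px k : ℂ), (py k : ℂ), 1] ^ pm k :=
  mem_of_tay GG_hom fun i j h => by
    rw [GG, tz_cast, g_low k i (by omega) j (by omega), Int.cast_zero]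

lemma GG_top (k : Fin 10) {μ : ℕ} (h : GG ∈ I ![(px k : ℂ), (py k : ℂ), 1] ^ μ) : μ ≤ pm k := by
  by_contra hlt
  have h1 := tay_low h (i := pm k) (j := 0) (by omega)
  rw [GG, tz_cast, Int.cast_eq_zero] at h1
  exact g_top k h1

lemma GG_irr {A B : R} {e e' : ℕ} {c : ℂ} (hA : A.IsHomogeneous e) (hB : B.IsHomogeneous e')
    (hA0 : A ≠ 0) (hB0 : B ≠ 0) (he : e + e' = 21) (h : A * B = C c * GG) : e = 0 ∨ e' = 0 := by
  obtain ⟨V, Ω, _, _, _, ⟨ρ⟩⟩ := exists_red
  obtain ⟨A', B', h1, h2, h3⟩ := red_factor ρ gz hA hB hA0 hB0 h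
  exact irr_mod h1 h2 he h3

lemma co_GG : co 21 GG 0 21 ≠ 0 := by
  have h1 := tay_zero GG_hom (i := 0) (j := 21) le_rfl
  have h2 := tz_cast 21 gz 0 0 0 21
  rw [Int.cast_zero] at h2
  rw [co, if_pos le_rfl, ← h1, GG, h2, Int.cast_ne_zero]
  decide +kernel

lemma GG_uniq {f : R} (hf : f.IsHomogeneous 21)
    (h : ∀ k, f ∈ I ![(px k : ℂ), (py k : ℂ), 1] ^ pm k) : ∃ c : ℂ, f = C c * GG := by
  refine ⟨co 21 f 0 21 / co 21 GG 0 21, sub_eq_zero.1 ?_⟩
  by_contra hne
  have h1 := hf.sub (GG_hom.C_mul (co 21 f 0 21 / co 21 GG 0 21))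
  have h2 := fun k => Ideal.sub_mem _ (h k)
    (Ideal.mul_mem_left _ (C (co 21 f 0 21 / co 21 GG 0 21)) (GG_mem k))
  have h3 : co 21 (f - C (co 21 f 0 21 / co 21 GG 0 21) * GG) 0 21 = 0 := by
    have h4 := div_mul_cancel₀ (co 21 f 0 21) co_GG
    rw [co, if_pos le_rfl, coeff_sub, coeff_C_mul]
    exact sub_eq_zero.2 h4.symm
  generalize f - C (co 21 f 0 21 / co 21 GG 0 21) * GG = u at hne h1 h2 h3
  obtain ⟨V, Ω, _, _, _, ⟨ρ⟩⟩ := exists_red
  obtain ⟨c, g, d, hc, rfl, hd⟩ := exists_prim V hne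
  have hg := prim_hom hc h1
  have h4 := all_zero (w := fun a b => ρ (co 21 g a b)) (fun k i j hij => ?_) (fun a b hab => ?_)
    (d 0) (d 1)
  · have h5 : d 0 + d 1 + d 2 = 21 := by
      rw [← degree_three]
      by_contra hn
      exact one_ne_zero (hd.symm.trans (hg.coeff_eq_zero hn))
    rw [co, if_pos (by omega), (e3_eq_iff _ _ _ d).2 ⟨rfl, rfl, by omega⟩, hd, map_one] at h4
    exact one_ne_zero h4
  · have h5 := tay_low (h2 k) hij
    rw [← form_co hg, map_form, ← smul_eq_C_mul, map_smul, map_smul, tay_form, smul_eq_mul,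
      mul_eq_zero, or_iff_right hc] at h5
    have h6 : ∑ a ∈ range 22, ∑ b ∈ range 22, co 21 g a b *
        (((px k : V) ^ (a - i) * a.choose i) * ((py k : V) ^ (b - j) * b.choose j)) = 0 := by
      refine V.subtype_injective ?_
      simp only [map_sum, map_mul, map_pow, map_intCast, map_natCast, map_zero]
      exact h5
    have h7 := congrArg ρ h6
    simpa only [map_sum, map_mul, map_pow, map_intCast, map_natCast, map_zero] using h7
  · by_cases h5 : 21 < a + b
    · rw [co, if_neg (by omega), map_zero]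
    obtain rfl : b = 21 := by omega
    obtain rfl : a = 0 := by omega
    rw [co, if_pos le_rfl, coeff_C_mul, coeff_map, mul_eq_zero, or_iff_right hc] at h3
    rw [co, if_pos le_rfl, V.subtype_injective (h3.trans (map_zero _).symm), map_zero]

/-- The coefficients of the sextic. -/
def fz (a b : ℕ) : ℤ := if a + b ≤ 6 then (([[0, 0, 192, 0, -36, -6, 0],
  [0, -128, 32, 64, 24, 3],
  [256, -256, -276, 98, -3],
  [0, 360, -156, -65],
  [-128, 64, 131],
  [0, -82],
  [16]] : List (List ℤ)).getD a []).getD b 0 else 0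

/-- The multiplicities of the sextic. -/
def pn : Fin 10 → ℕ := ![2, 2, 2, 2, 2, 2, 2, 2, 2, 1]

/-- The sextic. -/
noncomputable def FF : R := form 6 fun a b => (fz a b : ℂ)

lemma FF_hom : FF.IsHomogeneous 6 :=
  form_hom _ _ fun a b h => by rw [fz, if_neg (by omega), Int.cast_zero]

lemma FF_mem (k : Fin 10) : FF ∈ I ![(px k : ℂ), (py k : ℂ), 1] ^ pn k := by
  have h1 : ∀ k : Fin 10, ∀ i < pn k, ∀ j < pn k - i, tz 6 fz (px k) (py k) i j = 0 := by
    decide +kernel
  exact mem_of_tay FF_hom fun i j h => by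
    rw [FF, tz_cast, h1 k i (by omega) j (by omega), Int.cast_zero]

lemma FF_ne : FF ≠ 0 := fun h => by
  have h1 := tz_cast 6 fz 1 1 0 0
  rw [← FF, h, map_zero, map_zero, eq_comm, Int.cast_eq_zero] at h1
  exact absurd h1 (by decide +kernel)

lemma FF_val : cf 0 0 (tay (2 : ℤ) (1 : ℤ) FF) = 0 := by
  rw [FF, tz_cast, Int.cast_eq_zero]
  decide +kernel

lemma GG_val : cf 0 0 (tay (2 : ℤ) (1 : ℤ) GG) ≠ 0 := by
  rw [GG, tz_cast, Int.cast_ne_zero]
  decide +kernel

end Pool.Agent.Lib.MP_fa7d23_ag.Ten
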