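import Pool.Agent.Lib.MP_fa7d23_ag.Ten.Key
import Pool.Agent.Lib.MP_fa7d23_ag.Ten.Bez

set_option autoImplicit false

/-! Ten special points and any number of further points. -/

namespace Pool.Agent.Lib.MP_fa7d23_ag.Ten
open MvPolynomial Finset

variable (s : ℕ)

/-- Abscissae. -/
def xs : Fin (10 + s) → ℂ := Fin.append (fun k => (px k : ℂ)) fun j => (j.val : ℂ)

/-- Ordinates. -/
def ys : Fin (10 + s) → ℂ := Fin.append (fun k => (py k : ℂ)) fun _ => ((100 : ℤ) : ℂ)

/-- Multiplicities of the form of degree 21. -/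
def am : Fin (10 + s) → ℕ := Fin.append pm fun _ => 0

/-- Multiplicities of the sextic. -/
def an : Fin (10 + s) → ℕ := Fin.append pn fun _ => 0

/-- The points. -/
abbrev PP : Fin (10 + s) → Fin 3 → ℂ := fun j => ![xs s j, ys s j, 1]

lemma pts_inj : Function.Injective fun i => (xs s i, ys s i) := by
  have h1 : ∀ k l : Fin 10, px k = px l → py k = py l → k = l := by decide
  have h2 : ∀ k : Fin 10, py k ≠ 100 := by decide
  intro i j h
  have hx : xs s i = xs s j := congrArg Prod.fst h
  have hy : ys s i = ys s j := congrArg Prod.snd h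
  induction i using Fin.addCases with
  | left k =>
    induction j using Fin.addCases with
    | left l =>
      simp only [xs, ys, Fin.append_left, Int.cast_inj] at hx hy
      rw [h1 k l hx hy]
    | right l =>
      simp only [ys, Fin.append_left, Fin.append_right, Int.cast_inj] at hy
      exact absurd hy (h2 k)
  | right k =>
    induction j using Fin.addCases with
    | left l =>
      simp only [ys, Fin.append_left, Fin.append_right, Int.cast_inj] at hy
      exact absurd hy.symm (h2 l)
    | right l =>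
      simp only [xs, Fin.append_right, Nat.cast_inj] at hx
      rw [Fin.ext hx]

lemma GG_W : GG ∈ W (PP s) 21 (am s) := by
  refine (mem_W _ _ _ _).2 ⟨GG_hom, fun i => ?_⟩
  induction i using Fin.addCases with
  | left k => simpa only [PP, xs, ys, am, Fin.append_left] using GG_mem k
  | right k => simp [am]

lemma FF_W : FF ∈ W (PP s) 6 (an s) := by
  refine (mem_W _ _ _ _).2 ⟨FF_hom, fun i => ?_⟩
  induction i using Fin.addCases with
  | left k => simpa only [PP, xs, ys, an, Fin.append_left] using FF_mem k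
  | right k => simp [an]

lemma GG_ne : GG ≠ 0 := fun h => GG_val (by rw [h, map_zero, map_zero])

lemma sum_am : ∑ i, am s i = 66 := by
  simp only [Fin.sum_univ_add, am, Fin.append_left, Fin.append_right, sum_const_zero]
  decide

lemma sum_am_sq : ∑ i, am s i * am s i = 440 := by
  simp only [Fin.sum_univ_add, am, Fin.append_left, Fin.append_right, sum_const_zero, mul_zero]
  decide

variable {s}

lemma top_le {μ : Fin (10 + s) → ℕ} (h : ∀ i, GG ∈ I (PP s i) ^ μ i) :
    ∑ i, am s i * μ i ≤ 440 := by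
  rw [← sum_am_sq s]
  refine sum_le_sum fun i _ => ?_
  induction i using Fin.addCases with
  | left k =>
    refine Nat.mul_le_mul_left _ ?_
    have h1 := h (Fin.castAdd s k)
    simp only [PP, xs, ys, Fin.append_left] at h1
    simpa only [am, Fin.append_left] using GG_top k h1
  | right k => simp [am]

lemma nef {e : ℕ} {g : R} {μ : Fin (10 + s) → ℕ} (hg : g ∈ W (PP s) e μ) (hirr : Irreducible g) :
    ∑ i, am s i * μ i ≤ 21 * e := by
  by_cases hd : g ∣ GG
  · obtain ⟨h, hh⟩ := hd
    rw [mem_W] at hg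
    have h1 := totalDegree_le_of_dvd_of_isDomain ⟨h, hh⟩ GG_ne
    rw [hg.1.totalDegree hirr.ne_zero, GG_hom.totalDegree GG_ne] at h1
    have h2 : h.IsHomogeneous (21 - e) := hom_of_mul hg.1 hirr.ne_zero (by
      rw [← hh, Nat.add_sub_cancel' h1]
      exact GG_hom)
    have h3 := top_le fun i => by
      rw [hh]
      exact Ideal.mul_mem_right _ _ (hg.2 i)
    rcases GG_irr (c := 1) hg.1 h2 hirr.ne_zero (right_ne_zero_of_mul (hh ▸ GG_ne)) (by omega)
      (by rw [C_1, one_mul, hh]) with h4 | h4
    · subst h4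
      have h5 := totalDegree_eq_zero_iff_eq_C.mp (hg.1.totalDegree hirr.ne_zero)
      refine absurd ?_ hirr.not_isUnit
      rw [h5]
      exact (Ne.isUnit fun h6 => hirr.ne_zero (by rw [h5, h6, C_0])).map C
    · omega
  · exact bezout_mult (pts_inj s) (GG_W s) hg hirr.prime hd

lemma notB {e e' : ℕ} (he : e + e' = 21) {γ : Fin (10 + s) → ℤ} {f f' : R} (h0 : f ≠ 0)
    (h0' : f' ≠ 0) (hf : f ∈ W (PP s) e fun i => (γ i).toNat)
    (hf' : f' ∈ W (PP s) e' fun i => (am s i - γ i).toNat)
    (hg : 0 < 2 + ((e : ℤ) * e - ∑ i, γ i * γ i) + (-3 * e + ∑ i, γ i))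
    (hd : 21 * (e : ℤ) = ∑ i, (am s i : ℤ) * γ i) : e = 0 ∧ γ = 0 := by
  rw [mem_W] at hf hf'
  have h1 : ∀ i, f * f' ∈ I (PP s i) ^ am s i := fun i => by
    have h2 := Ideal.mul_mem_mul (hf.2 i) (hf'.2 i)
    rw [← pow_add] at h2
    exact Ideal.pow_le_pow_right (by omega) h2
  obtain ⟨c, hc⟩ := GG_uniq (he ▸ hf.1.mul hf'.1) fun k => by
    simpa only [PP, xs, ys, am, Fin.append_left] using h1 (Fin.castAdd s k)
  rcases GG_irr hf.1 hf'.1 h0 h0' he hc with h2 | h2
  · subst h2
    have h3 : ∀ i, γ i ≤ 0 := fun i => by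
      by_contra h4
      have h5 := eval_eq_zero_of_mem _ _ (by omega) f (hf.2 i)
      have h6 := totalDegree_eq_zero_iff_eq_C.mp (hf.1.totalDegree h0)
      rw [h6, eval_C] at h5
      exact h0 (by rw [h6, h5, map_zero])
    refine ⟨rfl, funext fun i => ?_⟩
    have h4 := single_le_sum (f := fun i => γ i * γ i - γ i)
      (fun j _ => by have := h3 j; nlinarith) (mem_univ i)
    rw [sum_sub_distrib] at h4
    have h5 := h3 i
    by_contra h6
    have h7 : γ i ≤ -1 := by
      have : γ i ≠ 0 := h6
      omega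
    push_cast at hg
    nlinarith
  · have hc0 : c ≠ 0 := by
      rintro rfl
      rw [C_0, zero_mul] at hc
      exact mul_ne_zero h0 h0' hc
    have h3 := top_le (μ := fun i => (γ i).toNat) fun i => by
      have e1 : GG = C c⁻¹ * f' * f := by
        rw [mul_assoc, mul_comm f', hc, ← mul_assoc, ← C_mul, inv_mul_cancel₀ hc0, C_1, one_mul]
      rw [e1]
      exact Ideal.mul_mem_left _ _ (hf.2 i)
    have h4 : ∑ i, (am s i : ℤ) * γ i ≤ ∑ i, (am s i : ℤ) * (γ i).toNat :=
      sum_le_sum fun i _ => mul_le_mul_of_nonneg_left (Int.self_le_toNat _) (Int.natCast_nonneg _)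
    zify at h3
    omega

lemma special (s m : ℕ) : (m + 1) ^ 2 + 4 ≤
    2 * Module.finrank ℂ (W (PP s) ((m + 1) * 21) fun i => (m + 1) * am s i) + 3 * (m + 1) := by
  let ν : Fin (10 + s) → ℕ := fun i => m * am s i + (am s i - an s i)
  have hc := count (xs s) (ys s) (21 * m + 15) ν
  have hν : ∑ i, ν i * (ν i + 1) = 440 * m ^ 2 + 694 * m + 272 := by
    simp only [Fin.sum_univ_add, ν, am, an, Fin.append_left, Fin.append_right]
    simp [Fin.sum_univ_succ, pm, pn]
    ring
  have hle : ∀ i, an s i ≤ am s i := fun i => by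
    induction i using Fin.addCases with
    | left k =>
      simp only [am, an, Fin.append_left]
      revert k
      decide
    | right k => simp [an]
  have hF := (mem_W _ _ _ _).1 (FF_W s)
  have hG := (mem_W _ _ _ _).1 (GG_W s)
  let F : (W (PP s) (21 * m + 15) ν × ℂ) →ₗ[ℂ] W (PP s) ((m + 1) * 21) fun i => (m + 1) * am s i :=
    (((LinearMap.mulLeft ℂ FF).comp (Submodule.subtype _)).coprod
      (LinearMap.toSpanSingleton ℂ R (GG ^ (m + 1)))).codRestrict _ fun z => by
      have hz := (mem_W _ _ _ _).1 z.1.2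
      change FF * z.1.1 + z.2 • GG ^ (m + 1) ∈ _
      refine Submodule.add_mem _ ((mem_W _ _ _ _).2 ⟨?_, fun i => ?_⟩)
        (Submodule.smul_mem _ _ ((mem_W _ _ _ _).2 ⟨?_, fun i => ?_⟩))
      · have h := hF.1.mul hz.1
        rwa [show 6 + (21 * m + 15) = (m + 1) * 21 by ring] at h
      · have h := Ideal.mul_mem_mul (hF.2 i) (hz.2 i)
        have h1 := hle i
        rwa [← pow_add, show an s i + ν i = (m + 1) * am s i by
          simp only [ν]
          rw [add_mul, one_mul]
          omega] at h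
      · have h := hG.1.pow (m + 1)
        rwa [mul_comm] at h
      · rw [mul_comm, pow_mul]
        exact Ideal.pow_mem_pow (hG.2 i) _
  have hpow : ∀ n, cf 0 0 (tay (2 : ℤ) (1 : ℤ) (GG ^ n)) ≠ 0 := fun n => by
    induction n with
    | zero => simp [cf_apply]
    | succ n ih =>
      rw [pow_succ, map_mul, cf_zero_mul]
      exact mul_ne_zero ih GG_val
  have hinj : Function.Injective F := by
    rw [injective_iff_map_eq_zero]
    rintro ⟨u, c⟩ h
    have h1 : FF * u.1 + c • GG ^ (m + 1) = 0 := congrArg Subtype.val h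
    have h2 := congrArg (fun f => cf 0 0 (tay (2 : ℤ) (1 : ℤ) f)) h1
    simp only [map_add, map_mul, map_smul, map_zero, cf_zero_mul, FF_val, zero_mul, zero_add,
      smul_eq_mul] at h2
    have hc0 : c = 0 := (mul_eq_zero.1 h2).resolve_right (hpow _)
    rw [hc0, zero_smul, add_zero] at h1
    exact Prod.ext (Subtype.ext ((mul_eq_zero.mp h1).resolve_left FF_ne)) hc0
  have h3 := LinearMap.finrank_le_finrank_of_injective hinj
  rw [Module.finrank_prod, Module.finrank_self] at h3
  rw [hν] at hc
  change _ ≤ 2 * Module.finrank ℂ (W (PP s) (21 * m + 15) ν) + _ at hc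
  nlinarith

end Pool.Agent.Lib.MP_fa7d23_ag.Ten
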