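import Pool.Agent.Lib.MP_fa7d23_ag.Ten.GDat

set_option autoImplicit false

/-! Packed rows of the matrix of conditions modulo seventeen. -/

namespace Pool.Agent.Lib.MP_fa7d23_ag.Ten
open Finset

lemma pack_lt (q : ℕ) (t : ℕ → ℕ) (h : ∀ a, t a < q) (n : ℕ) :
    ∑ a ∈ range n, t a * q ^ a < q ^ n := by
  induction n with
  | zero => simp
  | succ n ih =>
    rw [sum_range_succ, pow_succ]
    have h1 : (t n + 1) * q ^ n ≤ q * q ^ n := Nat.mul_le_mul_right _ (h n)
    nlinarith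

lemma pack_digit (q : ℕ) (n : ℕ) : ∀ (t : ℕ → ℕ) (_ : ∀ a, t a < q) (i : ℕ), i < n →
    (∑ a ∈ range n, t a * q ^ a) / q ^ i % q = t i := by
  induction n with
  | zero => exact fun _ _ i hi => absurd hi (Nat.not_lt_zero _)
  | succ n ih =>
    intro t h i hi
    have e : ∑ a ∈ range (n + 1), t a * q ^ a = t 0 + q * ∑ a ∈ range n, t (a + 1) * q ^ a := by
      rw [sum_range_succ', mul_sum, pow_zero, mul_one, add_comm]
      congr 1
      exact sum_congr rfl fun a _ => by ring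
    rw [e]
    rcases i with _ | i
    · rw [pow_zero, Nat.div_one, Nat.add_mul_mod_self_left, Nat.mod_eq_of_lt (h 0)]
    · rw [pow_succ', ← Nat.div_div_eq_div_mul, Nat.add_mul_div_left _ _ (Nat.zero_lt_of_lt (h 0)),
        Nat.div_eq_of_lt (h 0), zero_add]
      exact ih _ (fun a => h (a + 1)) i (by omega)

/-- One factor of an entry of the matrix. -/
def ent (x : ℤ) (i a : ℕ) : ℕ := (x % 17).toNat ^ (a - i) * ch a i % 17

/-- A packed row. -/
def row (k : Fin 10) (i j : ℕ) : ℕ :=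
  (∑ a ∈ range 22, ent (px k) i a * ((2 ^ 24) ^ 22) ^ a) *
    ∑ b ∈ range 22, ent (py k) j b * (2 ^ 24) ^ b

/-- All rows. -/
def rows : List ℕ := (List.finRange 10).flatMap fun k => (List.range (pm k)).flatMap fun i =>
  (List.range (pm k - i)).map fun j => row k i j

/-- A combination of rows. -/
def lin : List ℕ → ℕ → ℕ
  | [], _ => 0
  | r :: rs, B => B % 32 * r + lin rs (B / 32)

/-- The digits are those of a unit vector. -/
def unit (S a₀ b₀ : ℕ) : Bool := (List.range 22).all fun a => (List.range (min (22 - a) 21)).all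
  fun b => S / ((2 ^ 24) ^ 22) ^ a % (2 ^ 24) ^ 22 / (2 ^ 24) ^ b % 2 ^ 24 % 17 ==
    if a = a₀ ∧ b = b₀ then 1 else 0

/-- The check for the entries `(a₀, b₀)`, `(a₀, b₀ + 1)`, and so on. -/
def chk (a₀ : ℕ) : ℕ → List ℕ → Bool
  | _, [] => true
  | b₀, B :: l => unit (lin rows B) a₀ b₀ && chk a₀ (b₀ + 1) l

variable {Ω : Type} [Field Ω] [CharP Ω 17] (w : ℕ → ℕ → Ω)

/-- A packed relation with bounded digits. -/
def Good (r N : ℕ) : Prop := ∃ t : ℕ → ℕ → ℕ, (∀ a b, t a b ≤ N) ∧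
  r = ∑ a ∈ range 22, (∑ b ∈ range 22, t a b * (2 ^ 24) ^ b) * ((2 ^ 24) ^ 22) ^ a ∧
  ∑ a ∈ range 22, ∑ b ∈ range 22, w a b * (t a b : Ω) = 0

lemma ent_cast (x : ℤ) (i a : ℕ) : (ent x i a : Ω) = (x : Ω) ^ (a - i) * a.choose i := by
  have h : (((x % 17).toNat : ℕ) : Ω) = (x : Ω) := by
    rw [← Int.cast_natCast, Int.toNat_of_nonneg (Int.emod_nonneg _ (by norm_num))]
    exact (CharP.intCast_eq_intCast_mod Ω 17 (a := x)).symm
  rw [ent, ← CharP.cast_eq_mod Ω 17, Nat.cast_mul, Nat.cast_pow, h, ch_eq]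

variable {w}

omit [CharP Ω 17] in
lemma good_lin : ∀ (l : List ℕ) (B : ℕ), (∀ r ∈ l, Good w r 256) →
    Good w (lin l B) (l.length * 7936)
  | [], _, _ => ⟨fun _ _ => 0, fun _ _ => Nat.zero_le _, by simp [lin], by simp⟩
  | r :: l, B, h => by
    obtain ⟨t, h1, h2, h3⟩ := h r List.mem_cons_self
    obtain ⟨s, h4, h5, h6⟩ := good_lin l (B / 32) fun r hr => h r (List.mem_cons_of_mem _ hr)
    refine ⟨fun a b => B % 32 * t a b + s a b, fun a b => ?_, ?_, ?_⟩
    · have h7 : B % 32 * t a b ≤ 31 * 256 := Nat.mul_le_mul (by omega) (h1 a b)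
      have h8 := h4 a b
      rw [List.length_cons]
      change B % 32 * t a b + s a b ≤ _
      omega
    · rw [lin, h2, h5]
      simp only [mul_sum, sum_mul, add_mul, sum_add_distrib, mul_assoc]
    · have e : ∑ a ∈ range 22, ∑ b ∈ range 22, w a b * ((B % 32 * t a b + s a b : ℕ) : Ω) =
          (B % 32 : ℕ) * ∑ a ∈ range 22, ∑ b ∈ range 22, w a b * (t a b : Ω) +
            ∑ a ∈ range 22, ∑ b ∈ range 22, w a b * (s a b : Ω) := by
        simp only [mul_sum, ← sum_add_distrib]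
        refine sum_congr rfl fun a _ => sum_congr rfl fun b _ => ?_
        rw [Nat.cast_add, Nat.cast_mul]
        ring
      rw [e, h3, h6, mul_zero, add_zero]

variable (hw : ∀ k : Fin 10, ∀ i j, i + j < pm k → ∑ a ∈ range 22, ∑ b ∈ range 22,
    w a b * (((px k : Ω) ^ (a - i) * a.choose i) * ((py k : Ω) ^ (b - j) * b.choose j)) = 0)
  (h0 : ∀ a b, 21 < a + b ∨ b = 21 → w a b = 0)
include hw

lemma good_rows : ∀ r ∈ rows, Good w r 256 := by
  intro r hr
  simp only [rows, List.mem_flatMap, List.mem_map, List.mem_range] at hr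
  obtain ⟨k, -, i, hi, j, hj, rfl⟩ := hr
  have hb : ∀ x i a, ent x i a ≤ 16 := fun x i a => Nat.le_of_lt_succ (Nat.mod_lt _ (by norm_num))
  refine ⟨fun a b => ent (px k) i a * ent (py k) j b,
    fun a b => Nat.mul_le_mul (hb _ _ _) (hb _ _ _), ?_, ?_⟩
  · rw [row, sum_mul]
    refine sum_congr rfl fun a _ => ?_
    rw [mul_right_comm, mul_sum]
    simp only [mul_assoc]
  · simp only [Nat.cast_mul, ent_cast]
    exact hw k i j (by omega)

include h0

lemma unit_zero {B a₀ b₀ : ℕ} (ha : a₀ + b₀ ≤ 21) (h : unit (lin rows B) a₀ b₀ = true) :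
    w a₀ b₀ = 0 := by
  by_cases hb : b₀ = 21
  · exact h0 _ _ (Or.inr hb)
  obtain ⟨t, h1, h2, h3⟩ := good_lin rows B (good_rows hw)
  have hl : rows.length = 253 := by decide +kernel
  have h4 : ∀ a b, t a b < 2 ^ 24 := fun a b => (h1 a b).trans_lt (by rw [hl]; norm_num)
  simp only [unit, List.all_eq_true, List.mem_range, beq_iff_eq] at h
  have h5 : ∀ a ∈ range 22, ∀ b ∈ range 22,
      w a b * (t a b : Ω) = if a = a₀ ∧ b = b₀ then w a b else 0 := fun a ha' b hb' => by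
    by_cases hab : 21 < a + b ∨ b = 21
    · rw [h0 a b hab, zero_mul, ite_self]
    have h6 := h a (mem_range.1 ha') b (by omega)
    rw [h2, pack_digit _ 22 _ (fun a => pack_lt _ _ (h4 a) 22) a (mem_range.1 ha'),
      pack_digit _ 22 _ (h4 a) b (mem_range.1 hb')] at h6
    rw [CharP.cast_eq_mod Ω 17, h6]
    split_ifs <;> simp
  rw [sum_congr rfl fun a ha' => sum_congr rfl (h5 a ha'), sum_eq_single a₀, sum_eq_single b₀,
    if_pos ⟨rfl, rfl⟩] at h3
  · exact h3
  · exact fun b _ hb' => if_neg fun h' => hb' h'.2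
  · exact fun h' => absurd (mem_range.2 (by omega)) h'
  · exact fun a _ ha' => sum_eq_zero fun b _ => if_neg fun h' => ha' h'.1
  · exact fun h' => absurd (mem_range.2 (by omega)) h'

lemma chk_zero (a₀ : ℕ) : ∀ (l : List ℕ) (b₀ : ℕ), chk a₀ b₀ l = true →
    ∀ b, b₀ ≤ b → b < b₀ + l.length → a₀ + b ≤ 21 → w a₀ b = 0
  | [], b₀, _, b, h1, h2, _ => absurd h2 (by simpa using h1)
  | B :: l, b₀, h, b, h1, h2, h3 => by
    rw [chk, Bool.and_eq_true] at h
    rcases h1.eq_or_lt with rfl | h1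
    · exact unit_zero hw h0 h3 h.1
    · exact chk_zero a₀ l (b₀ + 1) h.2 b h1 (by rw [List.length_cons] at h2; omega) h3

end Pool.Agent.Lib.MP_fa7d23_ag.Ten
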