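import Pool.Agent.Lib.MP_fa7d23_ag.Count

set_option autoImplicit false

/-! Forms given by a table of coefficients, and Taylor coefficients at an affine point. -/

namespace Pool.Agent.Lib.MP_fa7d23_ag.Ten
open MvPolynomial Finset

/-- The exponent vector `(a, b, c)`. -/
noncomputable def e3 (a b c : ℕ) : Fin 3 →₀ ℕ := Finsupp.equivFunOnFinite.symm ![a, b, c]

lemma e3_eq_iff (a b c : ℕ) (d : Fin 3 →₀ ℕ) : e3 a b c = d ↔ a = d 0 ∧ b = d 1 ∧ c = d 2 := by
  constructor
  · rintro rfl
    exact ⟨rfl, rfl, rfl⟩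
  · rintro ⟨rfl, rfl, rfl⟩
    ext i
    fin_cases i <;> rfl

section ring
variable {S T : Type} [CommRing S] [CommRing T]

/-- The form of degree `n` with the table of coefficients `c`. -/
noncomputable def form (n : ℕ) (c : ℕ → ℕ → S) : MvPolynomial (Fin 3) S :=
  ∑ a ∈ range (n + 1), ∑ b ∈ range (n + 1), monomial (e3 a b (n - a - b)) (c a b)

/-- The table of coefficients of a form of degree `n`. -/
noncomputable def co (n : ℕ) (f : MvPolynomial (Fin 3) S) (a b : ℕ) : S :=
  if a + b ≤ n then coeff (e3 a b (n - a - b)) f else 0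

lemma form_hom (n : ℕ) (c : ℕ → ℕ → S) (h : ∀ a b, n < a + b → c a b = 0) :
    (form n c).IsHomogeneous n := by
  refine IsHomogeneous.sum _ _ _ fun a _ => IsHomogeneous.sum _ _ _ fun b _ => ?_
  by_cases hab : n < a + b
  · rw [h a b hab, monomial_zero]
    exact isHomogeneous_zero _ _ _
  · apply isHomogeneous_monomial
    rw [degree_three]
    change a + b + (n - a - b) = n
    omega

lemma form_co {n : ℕ} {f : MvPolynomial (Fin 3) S} (hf : f.IsHomogeneous n) :
    form n (co n f) = f := by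
  ext d
  simp only [form, coeff_sum, coeff_monomial]
  by_cases h0 : coeff d f = 0
  · rw [h0]
    refine sum_eq_zero fun a _ => sum_eq_zero fun b _ => ?_
    split_ifs with h
    · rw [co, h, h0, ite_self]
    · rfl
  have hd : d 0 + d 1 + d 2 = n := by
    rw [← degree_three]
    by_contra hne
    exact h0 (hf.coeff_eq_zero hne)
  have he : e3 (d 0) (d 1) (n - d 0 - d 1) = d := (e3_eq_iff _ _ _ _).2 ⟨rfl, rfl, by omega⟩
  rw [sum_eq_single (d 0), sum_eq_single (d 1), if_pos he, co, if_pos (by omega), he]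
  · exact fun b _ hb => if_neg fun h => hb ((e3_eq_iff _ _ _ _).1 h).2.1
  · exact fun h => absurd (mem_range.2 (by omega)) h
  · exact fun a _ ha => sum_eq_zero fun b _ => if_neg fun h => ha ((e3_eq_iff _ _ _ _).1 h).1
  · exact fun h => absurd (mem_range.2 (by omega)) h

lemma map_form (φ : S →+* T) (n : ℕ) (c : ℕ → ℕ → S) :
    map φ (form n c) = form n fun a b => φ (c a b) := by
  simp only [form, map_sum, map_monomial]

lemma aeval_form [Algebra S T] (u v : T) (n : ℕ) (c : ℕ → ℕ → S) :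
    aeval ![u, v, 1] (form n c) =
      ∑ a ∈ range (n + 1), ∑ b ∈ range (n + 1), algebraMap S T (c a b) * (u ^ a * v ^ b) := by
  simp only [form, map_sum]
  refine sum_congr rfl fun a _ => sum_congr rfl fun b _ => ?_
  rw [aeval_monomial, Finsupp.prod_fintype _ _ (by simp), Fin.prod_univ_three]
  change _ * (u ^ a * v ^ b * 1 ^ _) = _
  rw [one_pow, mul_one]

end ring

open Polynomial in
/-- The Taylor expansion at the point `(x, y, 1)`. -/
noncomputable def tay (x y : ℂ) : R →ₐ[ℂ] ℂ[X][X] :=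
  MvPolynomial.aeval ![Polynomial.C (Polynomial.X + Polynomial.C x),
    Polynomial.X + Polynomial.C (Polynomial.C y), 1]

open Polynomial in
/-- The coefficient of `X ^ i * Y ^ j`. -/
noncomputable def cf (i j : ℕ) : ℂ[X][X] →ₗ[ℂ] ℂ :=
  (lcoeff ℂ i).comp ((lcoeff ℂ[X] j).restrictScalars ℂ)

lemma cf_apply (i j : ℕ) (P : Polynomial (Polynomial ℂ)) : cf i j P = (P.coeff j).coeff i := rfl

lemma tay_form (x y : ℂ) (n : ℕ) (c : ℕ → ℕ → ℂ) (i j : ℕ) : cf i j (tay x y (form n c)) =
    ∑ a ∈ range (n + 1), ∑ b ∈ range (n + 1),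
      c a b * ((x ^ (a - i) * a.choose i) * (y ^ (b - j) * b.choose j)) := by
  rw [tay, aeval_form]
  simp only [map_sum]
  refine sum_congr rfl fun a _ => sum_congr rfl fun b _ => ?_
  rw [cf_apply, ← Polynomial.C_pow, Polynomial.algebraMap_apply, Polynomial.algebraMap_eq,
    Polynomial.coeff_C_mul, Polynomial.coeff_C_mul, Polynomial.coeff_C_mul,
    Polynomial.coeff_X_add_C_pow, ← Polynomial.C_pow, ← Polynomial.C_eq_natCast, ← Polynomial.C_mul,
    Polynomial.coeff_mul_C, Polynomial.coeff_X_add_C_pow]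

lemma cf_low (μ : ℕ) : ∀ P ∈ (Ideal.span {Polynomial.C Polynomial.X, Polynomial.X} :
    Ideal (Polynomial (Polynomial ℂ))) ^ μ, ∀ i j, i + j < μ → cf i j P = 0 := by
  induction μ with
  | zero => exact fun P _ i j h => absurd h (Nat.not_lt_zero _)
  | succ μ ih =>
    intro P hP
    rw [Submodule.pow_succ] at hP
    refine Submodule.mul_induction_on hP (fun a ha b hb i j hij => ?_)
      fun a b ha hb i j hij => by rw [map_add, ha i j hij, hb i j hij, add_zero]
    obtain ⟨u, v, rfl⟩ := Ideal.mem_span_pair.1 hb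
    have e : a * (u * Polynomial.C Polynomial.X + v * Polynomial.X) =
        Polynomial.C Polynomial.X * (u * a) + Polynomial.X * (v * a) := by ring
    have h1 := ih _ (Ideal.mul_mem_left _ u ha)
    have h2 := ih _ (Ideal.mul_mem_left _ v ha)
    have h3 : cf i j (Polynomial.C Polynomial.X * (u * a)) = 0 := by
      rw [cf_apply, Polynomial.coeff_C_mul]
      rcases i with _ | i
      · exact Polynomial.coeff_X_mul_zero _
      · rw [Polynomial.coeff_X_mul]
        exact h1 i j (by omega)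
    have h4 : cf i j (Polynomial.X * (v * a)) = 0 := by
      rw [cf_apply]
      rcases j with _ | j
      · rw [Polynomial.coeff_X_mul_zero, Polynomial.coeff_zero]
      · rw [Polynomial.coeff_X_mul]
        exact h2 i j (by omega)
    rw [e, map_add, h3, h4, add_zero]

lemma tay_low {x y : ℂ} {μ : ℕ} {f : R} (hf : f ∈ I ![x, y, 1] ^ μ) {i j : ℕ} (h : i + j < μ) :
    cf i j (tay x y f) = 0 := by
  refine cf_low μ _ (map_mem_pow (tay x y) _ ![x, y, 1] (fun a b => ?_) μ f hf) i j h
  rw [Ideal.mem_span_pair]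
  fin_cases a <;> fin_cases b
  · exact ⟨0, 0, by simp⟩
  · exact ⟨-Polynomial.C (Polynomial.C y), Polynomial.C (Polynomial.C x), by simp [tay]; ring⟩
  · exact ⟨-1, 0, by simp [tay]; ring⟩
  · exact ⟨Polynomial.C (Polynomial.C y), -Polynomial.C (Polynomial.C x), by simp [tay]; ring⟩
  · exact ⟨0, 0, by simp⟩
  · exact ⟨0, -1, by simp [tay]; ring⟩
  · exact ⟨1, 0, by simp [tay]⟩
  · exact ⟨0, 1, by simp [tay]⟩
  · exact ⟨0, 0, by simp⟩

lemma tay_shift (x y : ℂ) (f : R) : tay x y f = tay 0 0 (shift x y f) := by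
  have : tay x y = (tay 0 0).comp (shift x y) := by
    apply MvPolynomial.algHom_ext
    intro i
    fin_cases i <;> simp [shift, tay]
  exact DFunLike.congr_fun this f

lemma tay_zero {n : ℕ} {g : R} (hg : g.IsHomogeneous n) {i j : ℕ} (h : i + j ≤ n) :
    cf i j (tay 0 0 g) = coeff (e3 i j (n - i - j)) g := by
  have key : ∀ a i : ℕ, a ≠ i → (0 : ℂ) ^ (a - i) * (a.choose i : ℂ) = 0 := fun a i hai => by
    rcases lt_or_gt_of_ne hai with h | h
    · rw [Nat.choose_eq_zero_of_lt h, Nat.cast_zero, mul_zero]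
    · rw [zero_pow (by omega), zero_mul]
  conv_lhs => rw [← form_co hg, tay_form]
  rw [sum_eq_single i, sum_eq_single j]
  · simp [co, h]
  · exact fun b _ hb => by rw [key b j hb, mul_zero, mul_zero]
  · exact fun h' => absurd (mem_range.2 (by omega)) h'
  · exact fun a _ ha => sum_eq_zero fun b _ => by rw [key a i ha, zero_mul, mul_zero]
  · exact fun h' => absurd (mem_range.2 (by omega)) h'

lemma mem_of_tay {x y : ℂ} {n μ : ℕ} {f : R} (hf : f.IsHomogeneous n)
    (h : ∀ i j, i + j < μ → cf i j (tay x y f) = 0) : f ∈ I ![x, y, 1] ^ μ := by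
  refine mem_pow_of_coeff x y n μ f hf fun s => ?_
  have hg := shift_isHomogeneous x y n f hf
  have hs : s.2.val ≤ s.1.val := Nat.lt_succ_iff.mp s.2.isLt
  have hs' := s.1.isLt
  by_cases hn : s.1.val ≤ n
  · have e : e3 s.2.val (s.1.val - s.2.val) (n - s.2.val - (s.1.val - s.2.val)) = ex n s :=
      (e3_eq_iff _ _ _ _).2 ⟨rfl, rfl, by rw [ex_two]; omega⟩
    rw [← e, ← tay_zero hg (by omega), ← tay_shift]
    exact h _ _ (by omega)
  · apply hg.coeff_eq_zero
    rw [degree_three, ex_zero, ex_one, ex_two]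
    omega

attribute [local instance] MvPolynomial.gradedAlgebra in
lemma hom_of_mul {K : Type} [Field K] {D w : MvPolynomial (Fin 3) K} {e n : ℕ}
    (hD : D.IsHomogeneous e) (h0 : D ≠ 0) (h : (D * w).IsHomogeneous (e + n)) :
    w.IsHomogeneous n := by
  have h1 := DirectSum.coe_decompose_mul_add_of_left_mem (homogeneousSubmodule (Fin 3) K)
    (i := e) (j := n) (b := w) hD
  rw [DirectSum.decompose_of_mem_same _ h] at h1
  rw [mul_left_cancel₀ h0 h1]
  exact (DirectSum.decompose (homogeneousSubmodule (Fin 3) K) w n).2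

end Pool.Agent.Lib.MP_fa7d23_ag.Ten
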